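import Pool.Agent.J4H60.BPOneDefs

open Relation

namespace Pool.Agent.J4H60.BPOne

/-! ## Deterministic paths -/

section Paths

variable {ι : Type} (P : BP ι)

lemma step_det {x : ι → Bool} {u v w : P.Node} (h1 : P.Step x u v) (h2 : P.Step x u w) :
    v = w := by
  obtain ⟨i, hi, rfl⟩ := h1
  obtain ⟨j, hj, rfl⟩ := h2
  rw [hi] at hj
  cases hj
  rfl

lemma sink_no_step {x : ι → Bool} {u v : P.Node} {b : Bool} (h : P.kind u = Sum.inl b) :
    ¬ P.Step x u v := by
  rintro ⟨i, hi, _⟩
  rw [h] at hi
  cases hi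

/-- If the path on `x` from `s` passes `w` and ends in the sink `t`, then it goes from `w` to `t`. -/
lemma reach_tail {x : ι → Bool} {s w t : P.Node} {b : Bool} (hw : ReflTransGen (P.Step x) s w)
    (ht : ReflTransGen (P.Step x) s t) (hb : P.kind t = Sum.inl b) :
    ReflTransGen (P.Step x) w t := by
  induction hw with
  | refl => exact ht
  | tail _ hstep ih =>
      rcases ih.cases_head with h | ⟨c, hc, hct⟩
      · subst h
        exact absurd hstep (sink_no_step P hb)
      · rw [step_det P hstep hc]
        exact hct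

lemma sink_unique {x : ι → Bool} {s t t' : P.Node} {b b' : Bool}
    (ht : ReflTransGen (P.Step x) s t) (hb : P.kind t = Sum.inl b)
    (ht' : ReflTransGen (P.Step x) s t') (hb' : P.kind t' = Sum.inl b') : b = b' := by
  have h := reach_tail P ht ht' hb'
  rcases h.cases_head with h | ⟨c, hc, _⟩
  · subst h
    rw [hb] at hb'
    exact Sum.inl_injective hb'
  · exact absurd hc (sink_no_step P hb)

lemma step_edge {x : ι → Bool} {u v : P.Node} (h : P.Step x u v) : P.Edge u v := by
  obtain ⟨i, hi, rfl⟩ := h
  exact ⟨⟨i, hi⟩, x i, rfl⟩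

/-- `(w, a)` is a good pair: the inputs that extend the partial assignment `a` all reach `w`, and
no variable that `a` fixes is read at `w` or later. -/
def Good (w : P.Node) (a : ι → Option Bool) : Prop :=
  (∀ x : ι → Bool, (∀ i b, a i = some b → x i = b) → ReflTransGen (P.Step x) P.source w) ∧
  (∀ z i, ReflTransGen P.Edge w z → P.kind z = Sum.inr i → a i = none) ∧
  ReflTransGen P.Edge P.source w

lemma good_source : Good P P.source (fun _ => none) :=
  ⟨fun _ _ => ReflTransGen.refl, fun _ _ _ _ => rfl, ReflTransGen.refl⟩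

lemma good_next [DecidableEq ι] (hRO : P.ReadOnce) {v : P.Node} {a : ι → Option Bool} {i : ι}
    (hg : Good P v a) (hi : P.kind v = Sum.inr i) (b : Bool) :
    Good P (P.next v b) (Function.update a i (some b)) := by
  obtain ⟨h1, h2, h3⟩ := hg
  have hai : a i = none := h2 v i ReflTransGen.refl hi
  have hedge : P.Edge v (P.next v b) := ⟨⟨i, hi⟩, b, rfl⟩
  refine ⟨?_, ?_, h3.tail hedge⟩
  · intro x hx
    have hxa : ∀ j c, a j = some c → x j = c := by
      intro j c hj
      apply hx
      rw [Function.update_of_ne]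
      · exact hj
      · rintro rfl
        rw [hai] at hj
        cases hj
    have hxi : x i = b := hx i b (by simp)
    refine (h1 x hxa).tail ⟨i, hi, ?_⟩
    rw [hxi]
  · intro z j hz hj
    have hvz : TransGen P.Edge v z := TransGen.head' hedge hz
    have hne : j ≠ i := by
      rintro rfl
      exact hRO v z j h3 hvz hi hj
    rw [Function.update_of_ne hne]
    exact h2 z j (hvz.to_reflTransGen) hj

/-- Two good pairs with the same node: inputs that extend the two partial assignments and agree
outside get the same value. -/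
lemma no_merge {f : (ι → Bool) → Bool} (hC : P.Computes f) {w : P.Node}
    {a₁ a₂ : ι → Option Bool} (h₁ : Good P w a₁) (h₂ : Good P w a₂) (x₁ x₂ : ι → Bool)
    (e₁ : ∀ i b, a₁ i = some b → x₁ i = b) (e₂ : ∀ i b, a₂ i = some b → x₂ i = b)
    (hag : ∀ i, a₁ i = none → a₂ i = none → x₁ i = x₂ i) : f x₁ = f x₂ := by
  obtain ⟨s₁, hs₁, hk₁⟩ := hC x₁
  obtain ⟨s₂, hs₂, hk₂⟩ := hC x₂
  have hw₁ := h₁.1 x₁ e₁
  have hw₂ := h₂.1 x₂ e₂
  have ht := reach_tail P hw₁ hs₁ hk₁
  have key : ∀ u, ReflTransGen (P.Step x₁) w u →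
      ReflTransGen (P.Step x₂) w u ∧ ReflTransGen P.Edge w u := by
    intro u hu
    induction hu with
    | refl => exact ⟨ReflTransGen.refl, ReflTransGen.refl⟩
    | tail _ hstep ih =>
        obtain ⟨i, hi, rfl⟩ := hstep
        have n₁ := h₁.2.1 _ i ih.2 hi
        have n₂ := h₂.2.1 _ i ih.2 hi
        refine ⟨ih.1.tail ⟨i, hi, ?_⟩, ih.2.tail ⟨⟨i, hi⟩, x₁ i, rfl⟩⟩
        rw [hag i n₁ n₂]
  have ht₂ := (key s₁ ht).1
  exact sink_unique P (hw₂.trans ht₂) hk₁ hs₂ hk₂

/-- If a good pair sits at a sink, then `f` is constant on the inputs extending it. -/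
lemma good_sink {f : (ι → Bool) → Bool} (hC : P.Computes f) {w : P.Node} {b : Bool}
    {a : ι → Option Bool} (h : Good P w a) (hb : P.kind w = Sum.inl b) (x : ι → Bool)
    (e : ∀ i b, a i = some b → x i = b) : f x = b := by
  obtain ⟨s, hs, hk⟩ := hC x
  exact sink_unique P hs hk (h.1 x e) hb

end Paths

/-! ## Iterated ternary majority -/

/-- The leaves of the complete ternary tree of height `h`. -/
def T : ℕ → Type
  | 0 => Unit
  | h + 1 => Fin 3 × T h

instance instFintypeT : ∀ h, Fintype (T h)
  | 0 => inferInstanceAs (Fintype Unit)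
  | h + 1 => by
      have := instFintypeT h
      exact inferInstanceAs (Fintype (Fin 3 × T h))

instance instDecidableEqT : ∀ h, DecidableEq (T h)
  | 0 => inferInstanceAs (DecidableEq Unit)
  | h + 1 => by
      have := instDecidableEqT h
      exact inferInstanceAs (DecidableEq (Fin 3 × T h))

lemma card_T : ∀ h, Fintype.card (T h) = 3 ^ h
  | 0 => rfl
  | h + 1 => by
      have : Fintype.card (T (h + 1)) = Fintype.card (Fin 3 × T h) := rfl
      rw [this, Fintype.card_prod, card_T h, Fintype.card_fin, pow_succ, mul_comm]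

instance instInhabitedT : ∀ h, Inhabited (T h)
  | 0 => ⟨()⟩
  | h + 1 => ⟨((0 : Fin 3), (instInhabitedT h).default)⟩

/-- The majority of three bits. -/
def mj (a b c : Bool) : Bool := (a && b) || (a && c) || (b && c)

/-- The leaf `t` of the `i`-th subtree. -/
def nd {h : ℕ} (i : Fin 3) (t : T h) : T (h + 1) := (i, t)

lemma nd_inj {h : ℕ} {i j : Fin 3} {s t : T h} (e : nd i s = nd j t) : i = j ∧ s = t :=
  ⟨congrArg Prod.fst e, congrArg Prod.snd e⟩

lemma exists_nd {h : ℕ} (t : T (h + 1)) : ∃ i s, t = nd i s := ⟨t.1, t.2, rfl⟩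

lemma fin3 (i : Fin 3) : i = 0 ∨ i = 1 ∨ i = 2 := by
  revert i
  decide

/-- The `i`-th subtree part of a function on leaves. -/
def ch {h : ℕ} {α : Type} (c : T (h + 1) → α) (i : Fin 3) : T h → α := fun t => c (nd i t)

/-- Iterated majority. -/
def M : ∀ h, (T h → Bool) → Bool
  | 0, x => x ()
  | h + 1, x => mj (M h (ch x 0)) (M h (ch x 1)) (M h (ch x 2))

/-- Partial majority: defined when all three arguments are. -/
def mo : Option Bool → Option Bool → Option Bool → Option Bool
  | some a, some b, some c => some (mj a b c)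
  | _, _, _ => none

/-- Admissible triples of partial values. -/
def ok : Option Bool → Option Bool → Option Bool → Bool
  | some a, some b, some c => !(a == b && b == c)
  | some a, some b, none => a != b
  | some a, none, some c => a != c
  | none, some b, some c => b != c
  | _, _, _ => true

/-- The value of a partially read tree when all its leaves have been read. -/
def st : ∀ h, (T h → Option Bool) → Option Bool
  | 0, c => c ()
  | h + 1, c => mo (st h (ch c 0)) (st h (ch c 1)) (st h (ch c 2))

/-- The reluctant partial assignments. -/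
def adm : ∀ h, (T h → Option Bool) → Prop
  | 0, _ => True
  | h + 1, c => (∀ i, adm h (ch c i)) ∧ ok (st h (ch c 0)) (st h (ch c 1)) (st h (ch c 2)) = true

/-- Indicator that one of the three values is known. -/
def ind (a b c : Option Bool) : ℕ := (a.isSome || b.isSome || c.isSome).toNat

/-- The number of free answers given so far. -/
def F : ∀ h, (T h → Option Bool) → ℕ
  | 0, _ => 0
  | h + 1, c => F h (ch c 0) + F h (ch c 1) + F h (ch c 2) +
      ind (st h (ch c 0)) (st h (ch c 1)) (st h (ch c 2))

/-- The number of leaves read so far. -/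
def R : ∀ h, (T h → Option Bool) → ℕ
  | 0, c => (c ()).isSome.toNat
  | h + 1, c => R h (ch c 0) + R h (ch c 1) + R h (ch c 2)

lemma R_le (h : ℕ) (c : T h → Option Bool) :
    R h c ≤ 2 * F h c + (st h c).isSome.toNat := by
  induction h with
  | zero => simp [R, F, st]
  | succ h ih =>
      have h0 := ih (ch c 0)
      have h1 := ih (ch c 1)
      have h2 := ih (ch c 2)
      simp only [R, F, st]
      generalize st h (ch c 0) = s0 at *
      generalize st h (ch c 1) = s1 at *
      generalize st h (ch c 2) = s2 at *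
      rcases s0 with _ | s0 <;> rcases s1 with _ | s1 <;> rcases s2 with _ | s2 <;>
        simp [mo, ind] at * <;> omega

lemma R_of_st (h : ℕ) (c : T h → Option Bool) (hs : (st h c).isSome) : R h c = 3 ^ h := by
  induction h with
  | zero =>
      simp only [st] at hs
      simp [R, hs]
  | succ h ih =>
      have h0 := ih (ch c 0)
      have h1 := ih (ch c 1)
      have h2 := ih (ch c 2)
      simp only [R, st] at *
      generalize st h (ch c 0) = s0 at *
      generalize st h (ch c 1) = s1 at *
      generalize st h (ch c 2) = s2 at *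
      rcases s0 with _ | s0 <;> rcases s1 with _ | s1 <;> rcases s2 with _ | s2 <;>
        simp [mo] at *
      rw [h0, h1, h2, pow_succ]
      ring

/-- Filling the unread leaves with `b`. -/
lemma fill (h : ℕ) (c : T h → Option Bool) (hc : adm h c) (b : Bool) :
    M h (fun t => (c t).getD b) = (st h c).getD b := by
  induction h with
  | zero => rfl
  | succ h ih =>
      obtain ⟨hc1, hc2⟩ := hc
      have h0 := ih (ch c 0) (hc1 0)
      have h1 := ih (ch c 1) (hc1 1)
      have h2 := ih (ch c 2) (hc1 2)
      have e : ∀ i, ch (h := h) (fun t => (c t).getD b) i = fun t => (ch c i t).getD b :=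
        fun i => rfl
      simp only [M, st, e, h0, h1, h2]
      generalize st h (ch c 0) = s0 at *
      generalize st h (ch c 1) = s1 at *
      generalize st h (ch c 2) = s2 at *
      revert hc2
      clear h0 h1 h2 e hc1 ih
      revert s0 s1 s2 b
      decide

lemma st_none_of_unread (h : ℕ) (c : T h → Option Bool) (t : T h) (ht : c t = none) :
    st h c = none := by
  induction h with
  | zero => exact ht
  | succ h ih =>
      obtain ⟨i, t, rfl⟩ := exists_nd t
      have hi := ih (ch c i) t ht
      simp only [st]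
      rcases fin3 i with rfl | rfl | rfl
      · rw [hi]
        rfl
      · rw [hi]
        generalize st h (ch c 0) = s0
        generalize st h (ch c 2) = s2
        rcases s0 with _ | s0 <;> rcases s2 with _ | s2 <;> rfl
      · rw [hi]
        generalize st h (ch c 0) = s0
        generalize st h (ch c 1) = s1
        rcases s0 with _ | s0 <;> rcases s1 with _ | s1 <;> rfl

/-- Updating one leaf of the tree. -/
lemma ch_update_same {h : ℕ} (c : T (h + 1) → Option Bool) (i : Fin 3) (t : T h)
    (v : Option Bool) :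
    ch (Function.update c (nd i t) v) i = Function.update (ch c i) t v := by
  funext s
  by_cases hs : s = t
  · subst hs
    simp [ch]
  · have : nd i s ≠ nd i t := fun hh => hs (nd_inj hh).2
    simp only [ch]
    rw [Function.update_of_ne this, Function.update_of_ne hs]
    rfl

lemma ch_update_ne {h : ℕ} (c : T (h + 1) → Option Bool) (i j : Fin 3) (t : T h)
    (v : Option Bool) (hij : j ≠ i) :
    ch (Function.update c (nd i t) v) j = ch c j := by
  funext s
  have : nd j s ≠ nd i t := fun hh => hij (nd_inj hh).1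
  simp only [ch]
  rw [Function.update_of_ne this]

/-- The three ways in which a reluctant adversary answers a query. -/
inductive Move (h : ℕ) (c : T h → Option Bool) (t : T h) : Prop
  | free (hf : ∀ b, adm h (Function.update c t (some b)) ∧
      st h (Function.update c t (some b)) = none ∧
      F h (Function.update c t (some b)) = F h c + 1)
  | forced (b : Bool) (h1 : adm h (Function.update c t (some b)))
      (h2 : st h (Function.update c t (some b)) = none)
      (h3 : F h (Function.update c t (some b)) = F h c)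
  | pass (hp : ∀ b, adm h (Function.update c t (some b)) ∧
      st h (Function.update c t (some b)) = some b ∧
      F h (Function.update c t (some b)) = F h c)

/-- The combination step for one child being completed. -/
lemma pass_cases (s1 s2 : Option Bool) :
    (∀ b, ok (some b) s1 s2 = true ∧ mo (some b) s1 s2 = none ∧
      ind (some b) s1 s2 = ind none s1 s2 + 1) ∨
    (∃ b, ok (some b) s1 s2 = true ∧ mo (some b) s1 s2 = none ∧
      ind (some b) s1 s2 = ind none s1 s2) ∨
    (ok none s1 s2 = false) ∨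
    (∀ b, ok (some b) s1 s2 = true ∧ mo (some b) s1 s2 = some b ∧
      ind (some b) s1 s2 = ind none s1 s2) := by
  revert s1 s2
  decide

lemma ok_swap (a b c : Option Bool) : ok a b c = ok b a c ∧ ok a b c = ok c a b := by
  revert a b c
  decide

lemma mo_swap (a b c : Option Bool) : mo a b c = mo b a c ∧ mo a b c = mo c a b := by
  revert a b c
  decide

lemma ind_swap (a b c : Option Bool) : ind a b c = ind b a c ∧ ind a b c = ind c a b := by
  revert a b c
  decide

/-- Symmetric form of the recursion: the child `i` and the two others `j`, `k`. -/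
lemma unfold_at (i : Fin 3) : ∃ j k : Fin 3, j ≠ i ∧ k ≠ i ∧
    ∀ (h : ℕ) (c : T (h + 1) → Option Bool),
      (adm (h + 1) c ↔ (adm h (ch c i) ∧ adm h (ch c j) ∧ adm h (ch c k)) ∧
        ok (st h (ch c i)) (st h (ch c j)) (st h (ch c k)) = true) ∧
      st (h + 1) c = mo (st h (ch c i)) (st h (ch c j)) (st h (ch c k)) ∧
      F (h + 1) c = F h (ch c i) + (F h (ch c j) + F h (ch c k)) +
        ind (st h (ch c i)) (st h (ch c j)) (st h (ch c k)) ∧
      R (h + 1) c = R h (ch c i) + (R h (ch c j) + R h (ch c k)) := by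
  have ha : ∀ (h : ℕ) (c : T (h + 1) → Option Bool), adm (h + 1) c ↔
      (adm h (ch c 0) ∧ adm h (ch c 1) ∧ adm h (ch c 2)) ∧
        ok (st h (ch c 0)) (st h (ch c 1)) (st h (ch c 2)) = true := by
    intro h c
    constructor
    · rintro ⟨h1, h2⟩
      exact ⟨⟨h1 0, h1 1, h1 2⟩, h2⟩
    · rintro ⟨⟨h0, h1, h2⟩, h3⟩
      refine ⟨fun i => ?_, h3⟩
      rcases fin3 i with rfl | rfl | rfl <;> assumption
  rcases fin3 i with rfl | rfl | rfl
  · refine ⟨1, 2, by decide, by decide, fun h c => ⟨ha h c, rfl, ?_, ?_⟩⟩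
    · simp only [F]
      omega
    · simp only [R]
      omega
  · refine ⟨0, 2, by decide, by decide, fun h c => ⟨?_, ?_, ?_, ?_⟩⟩
    · rw [ha, (ok_swap _ _ _).1]
      tauto
    · simp only [st]
      rw [(mo_swap _ _ _).1]
    · simp only [F]
      rw [(ind_swap _ _ _).1]
      omega
    · simp only [R]
      omega
  · refine ⟨0, 1, by decide, by decide, fun h c => ⟨?_, ?_, ?_, ?_⟩⟩
    · rw [ha, (ok_swap _ _ _).2]
      tauto
    · simp only [st]
      rw [(mo_swap _ _ _).2]
    · simp only [F]
      rw [(ind_swap _ _ _).2]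
      omega
    · simp only [R]
      omega

lemma move (h : ℕ) (c : T h → Option Bool) (hc : adm h c) (t : T h) (ht : c t = none) :
    Move h c t := by
  induction h with
  | zero =>
      refine .pass fun b => ⟨trivial, ?_, rfl⟩
      exact Function.update_self (t : T 0) (some b) c
  | succ h ih =>
      obtain ⟨i, t, rfl⟩ := exists_nd t
      obtain ⟨j, k, hj, hk, hU⟩ := unfold_at i
      obtain ⟨⟨ai, aj, ak⟩, aok⟩ := (hU h c).1.1 hc
      have hi := st_none_of_unread h (ch c i) t ht
      have ei : ∀ v, ch (Function.update c (nd i t) v) i = Function.update (ch c i) t v :=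
        fun v => ch_update_same _ _ _ _
      have ej : ∀ v, ch (Function.update c (nd i t) v) j = ch c j :=
        fun v => ch_update_ne _ _ _ _ _ hj
      have ek : ∀ v, ch (Function.update c (nd i t) v) k = ch c k :=
        fun v => ch_update_ne _ _ _ _ _ hk
      have hst : st (h + 1) c = none := st_none_of_unread (h + 1) c (nd i t) ht
      rw [(hU h c).2.1] at hst
      rw [hi] at hst aok
      rcases ih (ch c i) ai t ht with hf | ⟨b, g1, g2, g3⟩ | hp
      · refine .free fun b => ⟨?_, ?_, ?_⟩
        · rw [(hU h _).1, ei, ej, ek, (hf b).2.1]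
          exact ⟨⟨(hf b).1, aj, ak⟩, aok⟩
        · rw [(hU h _).2.1, ei, ej, ek, (hf b).2.1]
          exact hst
        · rw [(hU h _).2.2.1, ei, ej, ek, (hf b).2.1, (hf b).2.2, (hU h c).2.2.1, hi]
          omega
      · refine .forced b ?_ ?_ ?_
        · rw [(hU h _).1, ei, ej, ek, g2]
          exact ⟨⟨g1, aj, ak⟩, aok⟩
        · rw [(hU h _).2.1, ei, ej, ek, g2]
          exact hst
        · rw [(hU h _).2.2.1, ei, ej, ek, g2, g3, (hU h c).2.2.1, hi]
      · rcases pass_cases (st h (ch c j)) (st h (ch c k)) with q | ⟨b, q1, q2, q3⟩ | q | q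
        · refine .free fun b => ⟨?_, ?_, ?_⟩
          · rw [(hU h _).1, ei, ej, ek, (hp b).2.1]
            exact ⟨⟨(hp b).1, aj, ak⟩, (q b).1⟩
          · rw [(hU h _).2.1, ei, ej, ek, (hp b).2.1]
            exact (q b).2.1
          · rw [(hU h _).2.2.1, ei, ej, ek, (hp b).2.1, (hp b).2.2, (hU h c).2.2.1, hi, (q b).2.2]
            omega
        · refine .forced b ?_ ?_ ?_
          · rw [(hU h _).1, ei, ej, ek, (hp b).2.1]
            exact ⟨⟨(hp b).1, aj, ak⟩, q1⟩
          · rw [(hU h _).2.1, ei, ej, ek, (hp b).2.1]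
            exact q2
          · rw [(hU h _).2.2.1, ei, ej, ek, (hp b).2.1, (hp b).2.2, (hU h c).2.2.1, hi, q3]
        · rw [aok] at q
          cases q
        · refine .pass fun b => ⟨?_, ?_, ?_⟩
          · rw [(hU h _).1, ei, ej, ek, (hp b).2.1]
            exact ⟨⟨(hp b).1, aj, ak⟩, (q b).1⟩
          · rw [(hU h _).2.1, ei, ej, ek, (hp b).2.1]
            exact (q b).2.1
          · rw [(hU h _).2.2.1, ei, ej, ek, (hp b).2.1, (hp b).2.2, (hU h c).2.2.1, hi, (q b).2.2]

lemma R_update (h : ℕ) (c : T h → Option Bool) (t : T h) (ht : c t = none) (b : Bool) :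
    R h (Function.update c t (some b)) = R h c + 1 := by
  induction h with
  | zero =>
      have e1 : Function.update c t (some b) () = some b :=
        Function.update_self (t : T 0) (some b) c
      have e2 : c () = none := ht
      simp only [R, e1, e2]
      rfl
  | succ h ih =>
      obtain ⟨i, t, rfl⟩ := exists_nd t
      obtain ⟨j, k, hj, hk, hU⟩ := unfold_at i
      rw [(hU h _).2.2.2, (hU h _).2.2.2, ch_update_same, ch_update_ne _ _ _ _ _ hj,
        ch_update_ne _ _ _ _ _ hk, ih (ch c i) t ht]
      omega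

lemma empty_tree (h : ℕ) : adm h (fun _ => none) ∧ st h (fun _ => none) = none ∧
    F h (fun _ => none) = 0 ∧ R h (fun _ => none) = 0 := by
  induction h with
  | zero => exact ⟨trivial, rfl, rfl, rfl⟩
  | succ h ih =>
      have e : ∀ i, ch (h := h) (fun _ => (none : Option Bool)) i = fun _ => none := fun i => rfl
      obtain ⟨h1, h2, h3, h4⟩ := ih
      refine ⟨⟨fun i => h1, ?_⟩, ?_, ?_, ?_⟩
      · simp only [e, h2]
        rfl
      · simp only [st, e, h2]
        rfl
      · simp only [F, e, h2, h3]
        rfl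
      · simp only [R, e, h4]

/-! ## The address function over blocks of iterated majorities -/

/-- The variables: `K + 1` blocks of `3 ^ h` variables each. -/
abbrev Var (K h : ℕ) : Type := Option (Fin K) × T h

/-- The part of an assignment on the block `j`. -/
def blk {K h : ℕ} {α : Type} (a : Var K h → α) (j : Option (Fin K)) : T h → α := fun t => a (j, t)

/-- The function: the block values give an address and a sign. -/
def func {K h : ℕ} (π : (Fin K → Bool) → Var K h) (x : Var K h → Bool) : Bool :=
  xor (x (π fun k => M h (blk x (some k)))) (M h (blk x none))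

section Count

variable {K h : ℕ}

/-- Reluctant partial assignments to all blocks. -/
def Adm (a : Var K h → Option Bool) : Prop := ∀ j, adm h (blk a j)

/-- The total number of free answers. -/
def Ft (a : Var K h → Option Bool) : ℕ := ∑ j, F h (blk a j)

/-- The total number of variables read. -/
def Rt (a : Var K h → Option Bool) : ℕ := ∑ j, R h (blk a j)

lemma blk_update_same (a : Var K h → Option Bool) (j : Option (Fin K)) (t : T h)
    (v : Option Bool) : blk (Function.update a (j, t) v) j = Function.update (blk a j) t v := by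
  funext s
  by_cases hs : s = t
  · subst hs
    simp [blk]
  · have : (j, s) ≠ (j, t) := fun hh => hs (congrArg Prod.snd hh)
    simp only [blk]
    rw [Function.update_of_ne this, Function.update_of_ne hs]
    rfl

lemma blk_update_ne (a : Var K h → Option Bool) (i j : Option (Fin K)) (t : T h)
    (v : Option Bool) (hij : i ≠ j) : blk (Function.update a (j, t) v) i = blk a i := by
  funext s
  have : (i, s) ≠ (j, t) := fun hh => hij (congrArg Prod.fst hh)
  simp only [blk]
  rw [Function.update_of_ne this]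

lemma sum_update (G : (T h → Option Bool) → ℕ) (a : Var K h → Option Bool)
    (j : Option (Fin K)) (t : T h) (v : Option Bool) :
    (∑ i, G (blk (Function.update a (j, t) v) i)) + G (blk a j) =
      (∑ i, G (blk a i)) + G (Function.update (blk a j) t v) := by
  have e1 := Finset.add_sum_erase Finset.univ (fun i => G (blk (Function.update a (j, t) v) i))
    (Finset.mem_univ j)
  have e2 := Finset.add_sum_erase Finset.univ (fun i => G (blk a i)) (Finset.mem_univ j)
  have : ∑ i ∈ Finset.univ.erase j, G (blk (Function.update a (j, t) v) i) =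
      ∑ i ∈ Finset.univ.erase j, G (blk a i) := by
    refine Finset.sum_congr rfl fun i hi => ?_
    rw [blk_update_ne _ _ _ _ _ (Finset.ne_of_mem_erase hi)]
  simp only [blk_update_same] at e1
  omega

lemma Adm_update {a : Var K h → Option Bool} (ha : Adm a) {j : Option (Fin K)} {t : T h}
    {b : Bool} (hb : adm h (Function.update (blk a j) t (some b))) :
    Adm (Function.update a (j, t) (some b)) := by
  intro i
  by_cases hi : i = j
  · subst hi
    rw [blk_update_same]
    exact hb
  · rw [blk_update_ne _ _ _ _ _ hi]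
    exact ha i

lemma Rt_update {a : Var K h → Option Bool} {j : Option (Fin K)} {t : T h}
    (hj : a (j, t) = none) (b : Bool) :
    Rt (Function.update a (j, t) (some b)) = Rt a + 1 := by
  have h1 := sum_update (R h) a j t (some b)
  have h2 := R_update h (blk a j) t hj b
  unfold Rt
  omega

lemma st_none {a : Var K h → Option Bool} (hR : Rt a < 3 ^ h) (j : Option (Fin K)) :
    st h (blk a j) = none := by
  by_contra hne
  have hs : (st h (blk a j)).isSome := Option.isSome_iff_ne_none.2 hne
  have h1 := R_of_st h _ hs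
  have h2 : R h (blk a j) ≤ Rt a :=
    Finset.single_le_sum (f := fun i => R h (blk a i)) (fun _ _ => Nat.zero_le _)
      (Finset.mem_univ j)
  omega

lemma Rt_le {a : Var K h → Option Bool} (hR : Rt a < 3 ^ h) : Rt a ≤ 2 * Ft a := by
  unfold Rt Ft
  rw [Finset.mul_sum]
  refine Finset.sum_le_sum fun j _ => ?_
  have h1 := R_le h (blk a j)
  rw [st_none hR j] at h1
  simpa using h1

/-- The input that extends `a` and puts the constant `w j` on the unread part of block `j`. -/
def ext (a : Var K h → Option Bool) (w : Option (Fin K) → Bool) : Var K h → Bool :=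
  fun i => (a i).getD (w i.1)

lemma ext_spec (a : Var K h → Option Bool) (w : Option (Fin K) → Bool) (i : Var K h) (b : Bool)
    (hi : a i = some b) : ext a w i = b := by
  simp [ext, hi]

lemma M_ext {a : Var K h → Option Bool} (ha : Adm a) (hR : Rt a < 3 ^ h)
    (w : Option (Fin K) → Bool) (j : Option (Fin K)) : M h (blk (ext a w) j) = w j := by
  have h1 := fill h (blk a j) (ha j) (w j)
  rw [st_none hR j] at h1
  exact h1

lemma func_ext (π : (Fin K → Bool) → Var K h) {a : Var K h → Option Bool} (ha : Adm a)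
    (hR : Rt a < 3 ^ h) (v : Fin K → Bool) (e : Bool) :
    func π (ext a fun o => o.elim e v) = xor (ext a (fun o => o.elim e v) (π v)) e := by
  unfold func
  simp only [M_ext ha hR]
  rfl

/-- Two good pairs at the same node never differ on a variable that both have read. -/
lemma no_clash {P : BP (Var K h)} {π : (Fin K → Bool) → Var K h}
    (hπ : Function.Surjective π) (hC : P.Computes (func π)) {w : P.Node}
    {a₁ a₂ : Var K h → Option Bool} (g₁ : Good P w a₁) (g₂ : Good P w a₂) (A₁ : Adm a₁)
    (A₂ : Adm a₂) (R₁ : Rt a₁ < 3 ^ h) (R₂ : Rt a₂ < 3 ^ h) (i : Var K h)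
    (e₁ : a₁ i = some true) (e₂ : a₂ i = some false) : False := by
  obtain ⟨v, rfl⟩ := hπ i
  have key := no_merge P hC g₁ g₂ (ext a₁ fun o => o.elim false v) (ext a₂ fun o => o.elim false v)
    (ext_spec _ _) (ext_spec _ _) (fun i h1 h2 => by simp [ext, h1, h2])
  rw [func_ext π A₁ R₁, func_ext π A₂ R₂, ext_spec _ _ _ _ e₁, ext_spec _ _ _ _ e₂] at key
  simp at key

lemma not_sink {P : BP (Var K h)} {π : (Fin K → Bool) → Var K h} (hK : 0 < K)
    (hπ : Function.Surjective π) (hC : P.Computes (func π)) {w : P.Node}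
    {a : Var K h → Option Bool} (g : Good P w a) (A : Adm a) (hR : Rt a < 3 ^ h) (b : Bool)
    (hb : P.kind w = Sum.inl b) : False := by
  obtain ⟨v, hv⟩ := hπ (some ⟨0, hK⟩, default)
  have k1 := good_sink P hC g hb (ext a fun o => o.elim false v) (ext_spec _ _)
  have k2 := good_sink P hC g hb (ext a fun o => o.elim true v) (ext_spec _ _)
  rw [func_ext π A hR] at k1 k2
  rw [hv] at k1 k2
  have k3 : ext a (fun o => o.elim false v) (some ⟨0, hK⟩, default) =
      ext a (fun o => o.elim true v) (some ⟨0, hK⟩, default) := rfl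
  rw [k3, ← k2] at k1
  simp at k1

/-- The counting argument. -/
lemma count {P : BP (Var K h)} {π : (Fin K → Bool) → Var K h} (hK : 0 < K)
    (hπ : Function.Surjective π) (hRO : P.ReadOnce) (hC : P.Computes (func π)) :
    ∀ (k : ℕ) (v : P.Node) (a : Var K h → Option Bool), Good P v a → Adm a →
      Rt a + k < 3 ^ h →
      ∃ D : Finset P.Node, 2 ^ ((Rt a + k + 1) / 2 - Ft a) ≤ D.card ∧
        ∀ w ∈ D, ∃ a', Good P w a' ∧ Adm a' ∧ Rt a' < 3 ^ h ∧
          ∀ i b, a i = some b → a' i = some b := by
  classical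
  intro k
  induction k with
  | zero =>
      intro v a hg hA hR
      refine ⟨{v}, ?_, ?_⟩
      · have h1 := Rt_le (a := a) (by omega)
        have h2 : (Rt a + 0 + 1) / 2 - Ft a = 0 := by omega
        rw [h2]
        simp
      · intro w hw
        rw [Finset.mem_singleton] at hw
        subst hw
        exact ⟨a, hg, hA, by omega, fun _ _ h => h⟩
  | succ k ih =>
      intro v a hg hA hR
      rcases hk : P.kind v with b | i
      · exact (not_sink hK hπ hC hg hA (by omega) b hk).elim
      · obtain ⟨j, t⟩ := i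
        have hai : a (j, t) = none := hg.2.1 v _ ReflTransGen.refl hk
        have hstep : ∀ b, Good P (P.next v b) (Function.update a (j, t) (some b)) :=
          fun b => good_next P hRO hg hk b
        have hRt : ∀ b, Rt (Function.update a (j, t) (some b)) = Rt a + 1 :=
          fun b => Rt_update hai b
        have hext : ∀ (b : Bool) (i : Var K h) (c : Bool), a i = some c →
            Function.update a (j, t) (some b) i = some c := by
          intro b i c hic
          rw [Function.update_of_ne]
          · exact hic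
          · rintro rfl
            rw [hai] at hic
            cases hic
        have hF : ∀ b, Ft (Function.update a (j, t) (some b)) + F h (blk a j) =
            Ft a + F h (Function.update (blk a j) t (some b)) :=
          fun b => sum_update (F h) a j t (some b)
        rcases move h (blk a j) (hA j) t hai with hf | ⟨b, g1, g2, g3⟩ | hp
        · have hb : ∀ b, ∃ D : Finset P.Node, 2 ^ ((Rt a + (k + 1) + 1) / 2 - (Ft a + 1)) ≤ D.card ∧
              ∀ w ∈ D, ∃ a', Good P w a' ∧ Adm a' ∧ Rt a' < 3 ^ h ∧
                ∀ i c, Function.update a (j, t) (some b) i = some c → a' i = some c := by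
            intro b
            have h1 := hF b
            rw [(hf b).2.2] at h1
            have h2 : Ft (Function.update a (j, t) (some b)) = Ft a + 1 := by omega
            obtain ⟨D, hD1, hD2⟩ := ih _ _ (hstep b) (Adm_update hA (hf b).1) (by rw [hRt]; omega)
            refine ⟨D, ?_, hD2⟩
            rw [hRt, h2] at hD1
            rw [show Rt a + (k + 1) + 1 = Rt a + 1 + k + 1 by omega]
            exact hD1
          obtain ⟨D1, hD1, hE1⟩ := hb true
          obtain ⟨D2, hD2, hE2⟩ := hb false
          refine ⟨D1 ∪ D2, ?_, ?_⟩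
          · have hdis : Disjoint D1 D2 := by
              rw [Finset.disjoint_left]
              intro w hw1 hw2
              obtain ⟨a1, p1, p2, p3, p4⟩ := hE1 w hw1
              obtain ⟨a2, q1, q2, q3, q4⟩ := hE2 w hw2
              exact no_clash hπ hC p1 q1 p2 q2 p3 q3 (j, t) (p4 _ _ (by simp)) (q4 _ _ (by simp))
            rw [Finset.card_union_of_disjoint hdis]
            set E := (Rt a + (k + 1) + 1) / 2 with hE
            rcases Nat.eq_zero_or_pos (E - Ft a) with h0 | h0
            · rw [h0]
              have : 0 < 2 ^ (E - (Ft a + 1)) := by positivity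
              omega
            · have h1 : E - Ft a = (E - (Ft a + 1)) + 1 := by omega
              rw [h1, pow_succ]
              omega
          · intro w hw
            rcases Finset.mem_union.1 hw with hw | hw
            · obtain ⟨a1, p1, p2, p3, p4⟩ := hE1 w hw
              exact ⟨a1, p1, p2, p3, fun i c hic => p4 i c (hext true i c hic)⟩
            · obtain ⟨a1, p1, p2, p3, p4⟩ := hE2 w hw
              exact ⟨a1, p1, p2, p3, fun i c hic => p4 i c (hext false i c hic)⟩
        · have h1 := hF b
          rw [g3] at h1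
          have h2 : Ft (Function.update a (j, t) (some b)) = Ft a := by omega
          obtain ⟨D, hD1, hD2⟩ := ih _ _ (hstep b) (Adm_update hA g1) (by rw [hRt]; omega)
          refine ⟨D, ?_, ?_⟩
          · rw [hRt, h2] at hD1
            rw [show Rt a + (k + 1) + 1 = Rt a + 1 + k + 1 by omega]
            exact hD1
          · intro w hw
            obtain ⟨a1, p1, p2, p3, p4⟩ := hD2 w hw
            exact ⟨a1, p1, p2, p3, fun i c hic => p4 i c (hext b i c hic)⟩
        · exfalso
          have h1 := (hp true).2.1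
          have h2 := st_none (a := Function.update a (j, t) (some true)) (by rw [hRt]; omega) j
          rw [blk_update_same, h1] at h2
          cases h2

/-- A read-once program for `func π` has at least `2 ^ (3 ^ h / 2)` nodes. -/
lemma size_bound {P : BP (Var K h)} {π : (Fin K → Bool) → Var K h} (hK : 0 < K)
    (hπ : Function.Surjective π) (hRO : P.ReadOnce) (hC : P.Computes (func π)) :
    2 ^ (3 ^ h / 2) ≤ P.size := by
  have hE := empty_tree h
  have hb : ∀ j, blk (K := K) (h := h) (fun _ => (none : Option Bool)) j = fun _ => none :=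
    fun j => rfl
  have hRt : Rt (K := K) (h := h) (fun _ => none) = 0 := by
    unfold Rt
    simp [hb, hE.2.2.2]
  have hFt : Ft (K := K) (h := h) (fun _ => none) = 0 := by
    unfold Ft
    simp [hb, hE.2.2.1]
  have hpos : 0 < 3 ^ h := by positivity
  obtain ⟨D, hD, _⟩ := count hK hπ hRO hC (3 ^ h - 1) P.source (fun _ => none) (good_source P)
    (fun j => hE.1) (by rw [hRt]; omega)
  rw [hRt, hFt] at hD
  have e : (0 + (3 ^ h - 1) + 1) / 2 - 0 = 3 ^ h / 2 := by
    have : 0 + (3 ^ h - 1) + 1 = 3 ^ h := by omega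
    rw [this]
    rfl
  rw [e] at hD
  have : Fintype P.Node := P.fintypeNode
  refine hD.trans ?_
  unfold BP.size
  exact @Finset.card_le_univ _ P.fintypeNode D

end Count

/-! ## Small DNFs -/

/-- Names of the certificates of iterated majority. -/
def Ce : ℕ → Type
  | 0 => Unit
  | h + 1 => Fin 3 × (Ce h × Ce h)

instance instFintypeCe : ∀ h, Fintype (Ce h)
  | 0 => inferInstanceAs (Fintype Unit)
  | h + 1 => by
      have := instFintypeCe h
      exact inferInstanceAs (Fintype (Fin 3 × (Ce h × Ce h)))

lemma card_Ce : ∀ h, 3 * Fintype.card (Ce h) = 3 ^ 2 ^ h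
  | 0 => rfl
  | h + 1 => by
      have : Fintype.card (Ce (h + 1)) = Fintype.card (Fin 3 × (Ce h × Ce h)) := rfl
      rw [this, Fintype.card_prod, Fintype.card_prod, Fintype.card_fin, pow_succ 2 h, pow_mul,
        ← card_Ce h]
      ring

/-- The leaves of a certificate. -/
def Lf : ∀ h, Ce h → Finset (T h)
  | 0, _ => Finset.univ
  | h + 1, c => (Lf h c.2.1).image (nd (c.1 + 1)) ∪ (Lf h c.2.2).image (nd (c.1 + 2))

lemma mj_iff (f : Fin 3 → Bool) (b : Bool) :
    mj (f 0) (f 1) (f 2) = b ↔ ∃ o : Fin 3, f (o + 1) = b ∧ f (o + 2) = b := by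
  have key : ∀ x y z b : Bool, (mj x y z = b ↔ (y = b ∧ z = b) ∨ (z = b ∧ x = b) ∨
      (x = b ∧ y = b)) := by decide
  rw [key]
  constructor
  · rintro (h | h | h)
    · exact ⟨0, h⟩
    · exact ⟨1, h⟩
    · exact ⟨2, h⟩
  · rintro ⟨o, h⟩
    rcases fin3 o with rfl | rfl | rfl
    · exact Or.inl h
    · exact Or.inr (Or.inl h)
    · exact Or.inr (Or.inr h)

lemma M_iff (h : ℕ) (x : T h → Bool) (b : Bool) :
    M h x = b ↔ ∃ c : Ce h, ∀ t ∈ Lf h c, x t = b := by
  induction h with
  | zero =>
      constructor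
      · intro hx
        refine ⟨(), fun t _ => ?_⟩
        exact hx
      · rintro ⟨c, hc⟩
        exact hc () (Finset.mem_univ (α := Unit) ())
  | succ h ih =>
      have h1 : M (h + 1) x = b ↔ ∃ o : Fin 3, M h (ch x (o + 1)) = b ∧ M h (ch x (o + 2)) = b :=
        mj_iff (fun i => M h (ch x i)) b
      rw [h1]
      constructor
      · rintro ⟨o, h2, h3⟩
        obtain ⟨c1, hc1⟩ := (ih _).1 h2
        obtain ⟨c2, hc2⟩ := (ih _).1 h3
        refine ⟨(o, (c1, c2)), fun t ht => ?_⟩
        rcases Finset.mem_union.1 ht with ht | ht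
        · obtain ⟨s, hs, rfl⟩ := Finset.mem_image.1 ht
          exact hc1 s hs
        · obtain ⟨s, hs, rfl⟩ := Finset.mem_image.1 ht
          exact hc2 s hs
      · rintro ⟨⟨o, c1, c2⟩, hc⟩
        refine ⟨o, (ih _).2 ⟨c1, fun t ht => ?_⟩, (ih _).2 ⟨c2, fun t ht => ?_⟩⟩
        · exact hc _ (Finset.mem_union_left _ (Finset.mem_image_of_mem _ ht))
        · exact hc _ (Finset.mem_union_right _ (Finset.mem_image_of_mem _ ht))

section DNF

variable {K h : ℕ}

/-- The monomial saying that the block values are `v`, `e`, by the certificates `c`, and that the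
addressed variable has the value `β xor e`. -/
def mon (π : (Fin K → Bool) → Var K h) (β : Bool)
    (p : (Fin K → Bool) × Bool × (Option (Fin K) → Ce h)) : Finset (Var K h × Bool) :=
  (Finset.univ.filter fun l : Var K h × Bool =>
    l.1.2 ∈ Lf h (p.2.2 l.1.1) ∧ l.2 = l.1.1.elim p.2.1 p.1) ∪ {(π p.1, xor β p.2.1)}

lemma sat_mon (π : (Fin K → Bool) → Var K h) (β : Bool)
    (p : (Fin K → Bool) × Bool × (Option (Fin K) → Ce h)) (x : Var K h → Bool) :
    Sat (mon π β p) x ↔ (∀ j, ∀ t ∈ Lf h (p.2.2 j), x (j, t) = j.elim p.2.1 p.1) ∧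
      x (π p.1) = xor β p.2.1 := by
  constructor
  · intro hs
    refine ⟨fun j t ht => ?_, ?_⟩
    · exact hs ((j, t), j.elim p.2.1 p.1) (Finset.mem_union_left _ (by simp [ht]))
    · exact hs (π p.1, xor β p.2.1) (Finset.mem_union_right _ (by simp))
  · rintro ⟨h1, h2⟩ ⟨⟨j, t⟩, b⟩ hl
    rcases Finset.mem_union.1 hl with hl | hl
    · simp only [Finset.mem_filter, Finset.mem_univ, true_and] at hl
      rw [hl.2]
      exact h1 j t hl.1
    · rw [Finset.mem_singleton] at hl
      rw [hl]
      exact h2

lemma exists_sat (π : (Fin K → Bool) → Var K h) (β : Bool) (x : Var K h → Bool) :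
    func π x = β ↔ ∃ p, Sat (mon π β p) x := by
  constructor
  · intro hx
    have hc : ∀ j, ∃ c : Ce h, ∀ t ∈ Lf h c, blk x j t = M h (blk x j) :=
      fun j => (M_iff h (blk x j) _).1 rfl
    choose c hc using hc
    refine ⟨(fun k => M h (blk x (some k)), M h (blk x none), c), ?_⟩
    rw [sat_mon]
    refine ⟨?_, ?_⟩
    · rintro (_ | k) t ht
      · exact hc none t ht
      · exact hc (some k) t ht
    · rw [← hx]
      unfold func
      simp
  · rintro ⟨⟨v, e, c⟩, hs⟩
    rw [sat_mon] at hs
    obtain ⟨h1, h2⟩ := hs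
    have h3 : ∀ j : Option (Fin K), M h (blk x j) = j.elim e v :=
      fun j => (M_iff h (blk x j) _).2 ⟨c j, h1 j⟩
    unfold func
    simp only [h3]
    have h4 : (fun k : Fin K => (some k : Option (Fin K)).elim e v) = v := rfl
    rw [h4]
    simp only at h2
    rw [h2]
    simp

lemma dnf_le_of {ι : Type} {f : (ι → Bool) → Bool} {I : Type} [Fintype I]
    (m : I → Finset (ι × Bool)) (hm : ∀ x, f x = true ↔ ∃ p, Sat (m p) x) :
    dnf f ≤ Fintype.card I := by
  classical
  have h1 : dnf f ≤ (Finset.univ.image m).card := by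
    refine Nat.sInf_le ⟨Finset.univ.image m, fun x => ?_, rfl⟩
    rw [hm]
    simp
  exact h1.trans (Finset.card_image_le.trans (by simp))

/-- Relabelling the variables of a monomial. -/
lemma sat_relabel {ι κ : Type} [DecidableEq κ] (e : ι ≃ κ) (A : Finset (ι × Bool))
    (y : κ → Bool) : Sat (A.image fun l => (e l.1, l.2)) y ↔ Sat A (y ∘ e) := by
  constructor
  · intro hs l hl
    exact hs (e l.1, l.2) (Finset.mem_image_of_mem (fun l : ι × Bool => (e l.1, l.2)) hl)
  · rintro hs l hl
    obtain ⟨l', hl', rfl⟩ := Finset.mem_image.1 hl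
    exact hs l' hl'

/-- The weight of the relabelled function. -/
lemma weight_le {κ : Type} [DecidableEq κ] (e : Var K h ≃ κ) (π : (Fin K → Bool) → Var K h) :
    weight (fun y : κ → Bool => func π (y ∘ e)) ≤
      2 * (2 ^ (K + 1) * Fintype.card (Ce h) ^ (K + 1)) := by
  have key : Fintype.card ((Fin K → Bool) × Bool × (Option (Fin K) → Ce h)) =
      2 ^ (K + 1) * Fintype.card (Ce h) ^ (K + 1) := by
    simp [Fintype.card_prod, pow_succ]
    ring
  have h1 : dnf (fun y : κ → Bool => func π (y ∘ e)) ≤
      Fintype.card ((Fin K → Bool) × Bool × (Option (Fin K) → Ce h)) := by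
    refine dnf_le_of (fun p => (mon π true p).image fun l => (e l.1, l.2)) fun y => ?_
    rw [exists_sat]
    simp only [sat_relabel]
  have h2 : dnf (fun y : κ → Bool => !func π (y ∘ e)) ≤
      Fintype.card ((Fin K → Bool) × Bool × (Option (Fin K) → Ce h)) := by
    refine dnf_le_of (fun p => (mon π false p).image fun l => (e l.1, l.2)) fun y => ?_
    have : (!func π (y ∘ e)) = true ↔ func π (y ∘ e) = false := by simp
    rw [this, exists_sat]
    simp only [sat_relabel]
  rw [key] at h1 h2
  have h3 : weight (fun y : κ → Bool => func π (y ∘ e)) =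
      dnf (fun y : κ → Bool => func π (y ∘ e)) + dnf (fun y : κ → Bool => !func π (y ∘ e)) := rfl
  rw [h3]
  omega

end DNF

/-! ## Relabelled programs and the trivial program -/

/-- Relabelling the variables of a program. -/
def BP.map {ι κ : Type} (P : BP κ) (g : κ → ι) : BP ι where
  Node := P.Node
  fintypeNode := P.fintypeNode
  source := P.source
  kind v := (P.kind v).map id g
  next := P.next
  acyclic := by
    intro v hv
    refine P.acyclic v (TransGen.mono ?_ _ _ hv)
    rintro u w ⟨⟨i, hi⟩, hb⟩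
    refine ⟨?_, hb⟩
    rcases hk : P.kind u with b | k
    · rw [hk] at hi
      cases hi
    · exact ⟨k, rfl⟩

lemma map_kind_inr {ι κ : Type} {P : BP κ} {e : κ ≃ ι} {v : P.Node} {i : ι}
    (h : (P.map e).kind v = Sum.inr i) : P.kind v = Sum.inr (e.symm i) := by
  change (P.kind v).map id e = Sum.inr i at h
  rcases hk : P.kind v with b | k
  · rw [hk] at h
    cases h
  · rw [hk] at h
    simp only [Sum.map_inr, Sum.inr.injEq] at h
    rw [← h, e.symm_apply_apply]

lemma map_edge {ι κ : Type} {P : BP κ} {e : κ ≃ ι} {u w : P.Node} (h : (P.map e).Edge u w) :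
    P.Edge u w := by
  obtain ⟨⟨i, hi⟩, hb⟩ := h
  exact ⟨⟨_, map_kind_inr hi⟩, hb⟩

lemma map_readOnce {ι κ : Type} {P : BP κ} (e : κ ≃ ι) (h : P.ReadOnce) :
    (P.map e).ReadOnce := by
  intro u w i hu huw hi hw
  have hle : (P.map e).Edge ≤ P.Edge := fun _ _ hh => map_edge hh
  exact h u w (e.symm i) (ReflTransGen.mono hle _ _ hu) (TransGen.mono hle _ _ huw)
    (map_kind_inr hi) (map_kind_inr hw)

lemma map_computes {ι κ : Type} {P : BP κ} (e : κ ≃ ι) {f : (ι → Bool) → Bool}
    (h : P.Computes fun y => f (y ∘ e.symm)) : (P.map e).Computes f := by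
  intro x
  obtain ⟨v, hv, hk⟩ := h (x ∘ e)
  have e1 : (x ∘ e) ∘ e.symm = x := by
    funext i
    simp
  refine ⟨v, ?_, ?_⟩
  · refine ReflTransGen.mono (p := (P.map e).Step x) ?_ _ _ hv
    rintro u w ⟨i, hi, rfl⟩
    refine ⟨e i, ?_, rfl⟩
    change (P.kind u).map id e = _
    rw [hi]
    rfl
  · change (P.kind v).map id e = _
    simp only [e1] at hk
    rw [hk]
    rfl

/-- The trivial program, which reads all the variables in order and remembers them. -/
def trivialBP {n : ℕ} (f : (Fin n → Bool) → Bool) : BP (Fin n) where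
  Node := Fin (n + 1) × (Fin n → Bool)
  fintypeNode := inferInstance
  source := (0, fun _ => false)
  kind v := if hv : v.1.1 < n then Sum.inr ⟨v.1.1, hv⟩ else Sum.inl (f v.2)
  next v b := if hv : v.1.1 < n then (⟨v.1.1 + 1, by omega⟩, Function.update v.2 ⟨v.1.1, hv⟩ b)
    else v
  acyclic := by
    intro v hv
    have key : ∀ u w : Fin (n + 1) × (Fin n → Bool), TransGen (fun u w =>
        (∃ i, (if hv : u.1.1 < n then (Sum.inr ⟨u.1.1, hv⟩ : Bool ⊕ Fin n) else
          Sum.inl (f u.2)) = Sum.inr i) ∧
        ∃ b, w = (if hv : u.1.1 < n then ((⟨u.1.1 + 1, by omega⟩, Function.update u.2 ⟨u.1.1, hv⟩ b) :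
          Fin (n + 1) × (Fin n → Bool)) else u)) u w → u.1.1 < w.1.1 := by
      intro u w huw
      have one : ∀ u w : Fin (n + 1) × (Fin n → Bool), ((∃ i, (if hv : u.1.1 < n then
          (Sum.inr ⟨u.1.1, hv⟩ : Bool ⊕ Fin n) else Sum.inl (f u.2)) = Sum.inr i) ∧
          ∃ b, w = (if hv : u.1.1 < n then ((⟨u.1.1 + 1, by omega⟩,
            Function.update u.2 ⟨u.1.1, hv⟩ b) : Fin (n + 1) × (Fin n → Bool)) else u)) →
          u.1.1 < w.1.1 := by
        rintro u w ⟨⟨i, hi⟩, b, rfl⟩
        by_cases hu : u.1.1 < n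
        · simp [hu]
        · simp [hu] at hi
      induction huw with
      | single h => exact one _ _ h
      | tail _ h ih => exact ih.trans (one _ _ h)
    exact lt_irrefl _ (key v v hv)

lemma trivial_edge {n : ℕ} (f : (Fin n → Bool) → Bool) {u w : (trivialBP f).Node}
    (h : (trivialBP f).Edge u w) : u.1.1 < w.1.1 := by
  obtain ⟨⟨i, hi⟩, b, rfl⟩ := h
  change (if hv : u.1.1 < n then (Sum.inr ⟨u.1.1, hv⟩ : Bool ⊕ Fin n) else
    Sum.inl (f u.2)) = Sum.inr i at hi
  change u.1.1 < (if hv : u.1.1 < n then ((⟨u.1.1 + 1, by omega⟩,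
    Function.update u.2 ⟨u.1.1, hv⟩ b) : Fin (n + 1) × (Fin n → Bool)) else u).1.1
  by_cases hu : u.1.1 < n
  · simp [hu]
  · simp [hu] at hi

lemma trivial_readOnce {n : ℕ} (f : (Fin n → Bool) → Bool) : (trivialBP f).ReadOnce := by
  intro u w i _ huw hi hw
  have hlt : u.1.1 < w.1.1 := by
    clear hi hw
    induction huw with
    | single h => exact trivial_edge f h
    | tail _ h ih => exact ih.trans (trivial_edge f h)
  change (if hv : u.1.1 < n then (Sum.inr ⟨u.1.1, hv⟩ : Bool ⊕ Fin n) else
    Sum.inl (f u.2)) = Sum.inr i at hi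
  change (if hv : w.1.1 < n then (Sum.inr ⟨w.1.1, hv⟩ : Bool ⊕ Fin n) else
    Sum.inl (f w.2)) = Sum.inr i at hw
  by_cases hu : u.1.1 < n
  · by_cases hw' : w.1.1 < n
    · simp only [hu, hw', dite_true, Sum.inr.injEq] at hi hw
      have e1 := congrArg Fin.val hi
      have e2 := congrArg Fin.val hw
      simp only at e1 e2
      omega
    · simp [hw'] at hw
  · simp [hu] at hi

lemma trivial_computes {n : ℕ} (f : (Fin n → Bool) → Bool) : (trivialBP f).Computes f := by
  intro x
  have key : ∀ k, (hk : k < n + 1) → ReflTransGen ((trivialBP f).Step x) (trivialBP f).source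
      ((⟨k, hk⟩, fun i => if i.1 < k then x i else false) : Fin (n + 1) × (Fin n → Bool)) := by
    intro k
    induction k with
    | zero =>
        intro hk
        exact ReflTransGen.refl
    | succ k ih =>
        intro hk
        refine (ih (by omega)).tail ⟨⟨k, by omega⟩, ?_, ?_⟩
        · change (if hv : k < n then (Sum.inr ⟨k, hv⟩ : Bool ⊕ Fin n) else _) = _
          rw [dif_pos (by omega)]
        · change _ = (if hv : k < n then ((⟨k + 1, by omega⟩,
            Function.update (fun i : Fin n => if i.1 < k then x i else false) ⟨k, hv⟩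
              (x ⟨k, by omega⟩)) : Fin (n + 1) × (Fin n → Bool)) else _)
          rw [dif_pos (by omega)]
          refine Prod.ext rfl ?_
          funext i
          simp only
          by_cases hi : i = ⟨k, by omega⟩
          · subst hi
            simp
          · have hne : i.1 ≠ k := fun hh => hi (Fin.ext hh)
            rw [Function.update_of_ne hi]
            by_cases h1 : i.1 < k
            · simp [h1, show i.1 < k + 1 by omega]
            · simp [h1, show ¬ i.1 < k + 1 by omega]
  refine ⟨_, key n (by omega), ?_⟩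
  change (if hv : n < n then (Sum.inr ⟨n, hv⟩ : Bool ⊕ Fin n) else Sum.inl (f _)) = _
  rw [dif_neg (lt_irrefl n)]
  congr 2
  funext i
  simp

/-! ## The family -/

lemma exists_address (h : ℕ) :
    ∃ π : (Fin (4 * (h + 1)) → Bool) → Var (4 * (h + 1)) h, Function.Surjective π := by
  have h1 : ∀ h : ℕ, 4 * (h + 1) + 1 ≤ 4 ^ (h + 2) := by
    intro h
    induction h with
    | zero => norm_num
    | succ h ih =>
        rw [pow_succ]
        omega
  have hc : Fintype.card (Var (4 * (h + 1)) h) ≤ Fintype.card (Fin (4 * (h + 1)) → Bool) := by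
    rw [Fintype.card_prod, Fintype.card_option, card_T, Fintype.card_fun, Fintype.card_fin,
      Fintype.card_bool]
    calc (4 * (h + 1) + 1) * 3 ^ h ≤ 4 ^ (h + 2) * 4 ^ h :=
          Nat.mul_le_mul (h1 h) (Nat.pow_le_pow_left (by norm_num) h)
      _ = 2 ^ (4 * (h + 1)) := by
          rw [← pow_add, show (4 : ℕ) = 2 ^ 2 by norm_num, ← pow_mul]
          congr 1
          ring
  obtain ⟨g⟩ := Function.Embedding.nonempty_of_card_le hc
  have : Nonempty (Var (4 * (h + 1)) h) := ⟨(none, default)⟩
  exact ⟨Function.invFun g, Function.invFun_surjective g.injective⟩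

theorem family (h : ℕ) : ∃ (n : ℕ) (f : (Fin n → Bool) → Bool),
    weight f ≤ 2 ^ (16 * (h + 1) * 2 ^ h) ∧ 2 ^ (3 ^ h / 2) ≤ BP1 f := by
  obtain ⟨π, hπ⟩ := exists_address h
  let e := Fintype.equivFin (Var (4 * (h + 1)) h)
  refine ⟨_, fun y => func π (y ∘ e), ?_, ?_⟩
  · refine (weight_le e π).trans ?_
    have h1 : Fintype.card (Ce h) ≤ 2 ^ (2 * 2 ^ h) := by
      have h2 := card_Ce h
      have h3 : 3 ^ 2 ^ h ≤ 4 ^ 2 ^ h := Nat.pow_le_pow_left (by norm_num) _
      rw [pow_mul]
      norm_num
      omega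
    calc 2 * (2 ^ (4 * (h + 1) + 1) * Fintype.card (Ce h) ^ (4 * (h + 1) + 1))
        ≤ 2 * (2 ^ (4 * (h + 1) + 1) * (2 ^ (2 * 2 ^ h)) ^ (4 * (h + 1) + 1)) := by gcongr
      _ = 2 ^ (1 + (4 * (h + 1) + 1) + 2 * 2 ^ h * (4 * (h + 1) + 1)) := by
          rw [← pow_mul]
          ring
      _ ≤ 2 ^ (16 * (h + 1) * 2 ^ h) := by
          refine Nat.pow_le_pow_right (by norm_num) ?_
          have h4 : 1 ≤ 2 ^ h := Nat.one_le_two_pow
          nlinarith
  · refine le_csInf ⟨_, trivialBP _, trivial_readOnce _, trivial_computes _, rfl⟩ ?_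
    rintro s ⟨P, hRO, hC, rfl⟩
    have h1 : (P.map e.symm).Computes (func π) := map_computes e.symm hC
    exact size_bound (by omega) hπ (map_readOnce e.symm hRO) h1

lemma small_pow (k : ℕ) {r : ℝ} (h0 : 0 < r) (h1 : r < 1) {ε : ℝ} (hε : 0 < ε) :
    ∀ᶠ h : ℕ in Filter.atTop, ((h : ℝ) + 1) ^ k * r ^ h ≤ ε := by
  have h2 := tendsto_pow_const_mul_const_pow_of_abs_lt_one k (r := r)
    (by rw [abs_of_pos h0]; exact h1)
  have h3 := h2.comp (Filter.tendsto_add_atTop_nat 1)
  have h4 : (0 : ℝ) < ε * r := by positivity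
  filter_upwards [h3.eventually (ge_mem_nhds h4)] with h hh
  simp only [Function.comp, Nat.cast_add, Nat.cast_one, pow_succ] at hh
  have h5 : ((h : ℝ) + 1) ^ k * r ^ h * r ≤ ε * r := by
    rw [mul_assoc]
    exact hh
  exact le_of_mul_le_mul_right h5 h0

lemma eval_bound (p : Polynomial ℝ) : ∃ B : ℕ, ∀ (W : ℕ) (w : ℝ), 0 ≤ w → w ≤ 2 ^ W →
    p.eval w < 2 ^ (B + W * p.natDegree) := by
  set C : ℝ := ∑ i ∈ Finset.range (p.natDegree + 1), |p.coeff i| with hC
  obtain ⟨B, hB⟩ := pow_unbounded_of_one_lt C (one_lt_two (α := ℝ))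
  refine ⟨B, fun W w h0 h1 => ?_⟩
  rw [Polynomial.eval_eq_sum_range]
  have h2 : ∑ i ∈ Finset.range (p.natDegree + 1), p.coeff i * w ^ i ≤
      ∑ i ∈ Finset.range (p.natDegree + 1), |p.coeff i| * (2 : ℝ) ^ (W * p.natDegree) := by
    refine Finset.sum_le_sum fun i hi => ?_
    have h3 : w ^ i ≤ (2 : ℝ) ^ (W * p.natDegree) := by
      calc w ^ i ≤ (2 ^ W) ^ i := pow_le_pow_left₀ h0 h1 i
        _ = 2 ^ (W * i) := by rw [← pow_mul]
        _ ≤ 2 ^ (W * p.natDegree) := by
            refine pow_le_pow_right₀ one_le_two (Nat.mul_le_mul_left _ ?_)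
            have := Finset.mem_range.1 hi
            omega
    calc p.coeff i * w ^ i ≤ |p.coeff i| * w ^ i :=
          mul_le_mul_of_nonneg_right (le_abs_self _) (pow_nonneg h0 i)
      _ ≤ |p.coeff i| * 2 ^ (W * p.natDegree) := mul_le_mul_of_nonneg_left h3 (abs_nonneg _)
  rw [← Finset.sum_mul, ← hC] at h2
  refine h2.trans_lt ?_
  rw [pow_add]
  exact mul_lt_mul_of_pos_right hB (by positivity)

/-- **Read-once branching programs versus DNFs.**  For every real number `c` with
`0 < c < log₂ 3` and every polynomial `p` there is a Boolean function `f` with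
`p(‖f‖) < BP₁(f)` and `(log₂ ‖f‖) ^ c ≤ log₂ BP₁(f)`. -/
theorem main (c : ℝ) (hc0 : 0 < c) (hc : c < Real.logb 2 3) (p : Polynomial ℝ) :
    ∃ (n : ℕ) (f : (Fin n → Bool) → Bool), p.eval (weight f : ℝ) < (BP1 f : ℝ) ∧
      Real.logb 2 (weight f : ℝ) ^ c ≤ Real.logb 2 (BP1 f : ℝ) := by
  obtain ⟨B, hB⟩ := eval_bound p
  set A : ℕ := B + 16 * p.natDegree + 1 with hA
  have hc2 : (2 : ℝ) ^ c < 3 := by
    have := Real.rpow_lt_rpow_of_exponent_lt one_lt_two hc
    rwa [Real.rpow_logb two_pos (by norm_num) (by norm_num)] at this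
  have hcle : c ≤ 2 := by
    have h1 : Real.logb 2 3 ≤ Real.logb 2 4 :=
      Real.logb_le_logb_of_le one_lt_two (by norm_num) (by norm_num)
    have h2 : Real.logb 2 4 = 2 := by
      rw [show (4 : ℝ) = 2 ^ (2 : ℝ) by norm_num, Real.logb_rpow two_pos (by norm_num)]
    linarith
  have hr0 : 0 < (2 : ℝ) ^ c / 3 := by positivity
  have hr1 : (2 : ℝ) ^ c / 3 < 1 := by
    rw [div_lt_one (by norm_num)]
    exact hc2
  have e1 := small_pow 1 (r := 2 / 3) (by norm_num) (by norm_num)
    (ε := 1 / (4 * A)) (by positivity)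
  have e2 := small_pow 2 hr0 hr1 (ε := 1 / (4 * 16 ^ c)) (by positivity)
  obtain ⟨h, h1, h2, h3⟩ := (e1.and (e2.and (Filter.eventually_ge_atTop 1))).exists
  obtain ⟨n, f, hw, hb⟩ := family h
  have h3pos : (0 : ℝ) < 3 ^ h := by positivity
  -- the floor
  have hfl : (3 : ℝ) ^ h / 4 ≤ ((3 ^ h / 2 : ℕ) : ℝ) := by
    have q1 : 3 ^ 1 ≤ 3 ^ h := Nat.pow_le_pow_right (by norm_num) h3
    have q2 : 3 ^ h ≤ 4 * (3 ^ h / 2) := by omega
    have q3 : ((3 ^ h : ℕ) : ℝ) ≤ ((4 * (3 ^ h / 2) : ℕ) : ℝ) := by exact_mod_cast q2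
    push_cast at q3
    linarith
  have hbr : (2 : ℝ) ^ (3 ^ h / 2) ≤ (BP1 f : ℝ) := by exact_mod_cast hb
  have hwr : (weight f : ℝ) ≤ 2 ^ (16 * (h + 1) * 2 ^ h) := by exact_mod_cast hw
  refine ⟨n, f, ?_, ?_⟩
  · refine (hB _ _ (Nat.cast_nonneg _) hwr).trans_le (le_trans ?_ hbr)
    refine pow_le_pow_right₀ one_le_two ?_
    have g1 : (A : ℝ) * (((h : ℝ) + 1) * 2 ^ h) ≤ 3 ^ h / 4 := by
      have hApos : (0 : ℝ) < A := by
        rw [hA]
        positivity
      rw [pow_one, div_pow, ← mul_div_assoc, div_le_div_iff₀ h3pos (by positivity)] at h1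
      linarith
    have g2 : ((A * ((h + 1) * 2 ^ h) : ℕ) : ℝ) ≤ ((3 ^ h / 2 : ℕ) : ℝ) := by
      push_cast
      linarith
    have g3 : A * ((h + 1) * 2 ^ h) ≤ 3 ^ h / 2 := by exact_mod_cast g2
    refine le_trans ?_ g3
    rw [hA]
    have g4 : 1 ≤ (h + 1) * 2 ^ h := Nat.mul_pos (by omega) (by positivity)
    nlinarith
  · have t1 : ((3 ^ h / 2 : ℕ) : ℝ) ≤ Real.logb 2 (BP1 f : ℝ) := by
      have := Real.logb_le_logb_of_le one_lt_two (by positivity) hbr
      rwa [← Real.rpow_natCast, Real.logb_rpow two_pos (by norm_num)] at this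
    have t2 : Real.logb 2 (weight f : ℝ) ^ c ≤ (16 * ((h : ℝ) + 1) * 2 ^ h) ^ c := by
      rcases Nat.eq_zero_or_pos (weight f) with h0 | h0
      · rw [h0]
        simp only [Nat.cast_zero, Real.logb_zero]
        rw [Real.zero_rpow hc0.ne']
        positivity
      · have q0 : (1 : ℝ) ≤ weight f := by exact_mod_cast h0
        refine Real.rpow_le_rpow (Real.logb_nonneg one_lt_two q0) ?_ hc0.le
        have := Real.logb_le_logb_of_le one_lt_two (by linarith) hwr
        rw [← Real.rpow_natCast, Real.logb_rpow two_pos (by norm_num)] at this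
        push_cast at this
        exact this
    have t3 : (16 * ((h : ℝ) + 1) * 2 ^ h) ^ c ≤ 3 ^ h / 4 := by
      rw [Real.mul_rpow (by positivity) (by positivity), Real.mul_rpow (by norm_num) (by positivity)]
      have q1 : ((h : ℝ) + 1) ^ c ≤ ((h : ℝ) + 1) ^ 2 := by
        rw [← Real.rpow_two]
        exact Real.rpow_le_rpow_of_exponent_le (by linarith [Nat.cast_nonneg (α := ℝ) h]) hcle
      have q2 : ((2 : ℝ) ^ h) ^ c = (2 ^ c) ^ h := by
        rw [← Real.rpow_natCast, ← Real.rpow_natCast, ← Real.rpow_mul two_pos.le,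
          ← Real.rpow_mul two_pos.le, mul_comm]
      rw [q2]
      have q3 : (0 : ℝ) < 16 ^ c := by positivity
      rw [div_pow, ← mul_div_assoc, div_le_div_iff₀ h3pos (by positivity)] at h2
      have q4 : (0 : ℝ) < (2 ^ c) ^ h := by positivity
      have q5 : 16 ^ c * ((h : ℝ) + 1) ^ c * (2 ^ c) ^ h ≤
          16 ^ c * ((h : ℝ) + 1) ^ 2 * (2 ^ c) ^ h := by gcongr
      linarith
    linarith [hfl]

end Pool.Agent.J4H60.BPOne
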