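import Mathlib

open Relation

namespace Pool.Agent.J4H60.BPOne

/-! ## DNFs and the weight of a Boolean function -/

/-- The monomial `M`, a finite conjunction of literals `(i, b)` (the literal `(i, b)` says
that the variable `i` has the value `b`), is satisfied by the input `x`. -/
def Sat {ι : Type} (M : Finset (ι × Bool)) (x : ι → Bool) : Prop :=
  ∀ l ∈ M, x l.1 = l.2

/-- The DNF `D` (a finite set of monomials) represents the Boolean function `f`. -/
def Represents {ι : Type} (D : Finset (Finset (ι × Bool))) (f : (ι → Bool) → Bool) : Prop :=
  ∀ x, f x = true ↔ ∃ M ∈ D, Sat M x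

/-- The least number of monomials in a DNF representing `f`. -/
noncomputable def dnf {ι : Type} (f : (ι → Bool) → Bool) : ℕ :=
  sInf {s | ∃ D : Finset (Finset (ι × Bool)), Represents D f ∧ D.card = s}

/-- The weight `‖f‖ = dnf f + dnf (¬ f)`. -/
noncomputable def weight {ι : Type} (f : (ι → Bool) → Bool) : ℕ :=
  dnf f + dnf (fun x => !f x)

/-! ## Branching programs -/

/-- A deterministic branching program whose variables are indexed by `ι`: a finite directed
acyclic graph with a start node, in which each node `v` is either a sink with a label in
`{0, 1}` (`kind v = Sum.inl b`) or carries a variable (`kind v = Sum.inr i`) and has two outgoing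
edges, to `next v false` and to `next v true`. -/
structure BP (ι : Type) where
  Node : Type
  fintypeNode : Fintype Node
  source : Node
  kind : Node → Bool ⊕ ι
  next : Node → Bool → Node
  acyclic : ∀ v, ¬ TransGen (fun u w => (∃ i, kind u = Sum.inr i) ∧ ∃ b, w = next u b) v v

namespace BP

variable {ι : Type}

/-- The edges of the program. -/
def Edge (P : BP ι) (u w : P.Node) : Prop :=
  (∃ i, P.kind u = Sum.inr i) ∧ ∃ b, w = P.next u b

/-- The step made at the node `u` on the input `x`. -/
def Step (P : BP ι) (x : ι → Bool) (u w : P.Node) : Prop :=
  ∃ i, P.kind u = Sum.inr i ∧ w = P.next u (x i)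

/-- The program computes `f`: on each input `x` the path from the source that follows `x` ends
in a sink labelled `f x`. -/
def Computes (P : BP ι) (f : (ι → Bool) → Bool) : Prop :=
  ∀ x, ∃ v, ReflTransGen (P.Step x) P.source v ∧ P.kind v = Sum.inl (f x)

/-- The program is read-once: if `w` lies after `u` on a path from the source, then `u` and `w`
do not carry the same variable. -/
def ReadOnce (P : BP ι) : Prop :=
  ∀ u w i, ReflTransGen P.Edge P.source u → TransGen P.Edge u w →
    P.kind u = Sum.inr i → P.kind w ≠ Sum.inr i

/-- The size of a program is its number of nodes. -/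
def size (P : BP ι) : ℕ := @Fintype.card P.Node P.fintypeNode

end BP

/-- The least size of a read-once branching program computing `f`. -/
noncomputable def BP1 {ι : Type} (f : (ι → Bool) → Bool) : ℕ :=
  sInf {s | ∃ P : BP ι, P.ReadOnce ∧ P.Computes f ∧ P.size = s}

end Pool.Agent.J4H60.BPOne
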