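import Pool.Agent.J4H60.WeakDomDefs

namespace Pool.Agent.J4H60.WeakDom

open SimpleGraph

variable {V : Type*} {G : SimpleGraph V}

/-- In a tree the neighbour of `v` closer to the root is unique. -/
theorem parent_unique (hG : G.IsTree) (r : V) {v u u' : V} (h : G.Adj v u) (h' : G.Adj v u')
    (hd : G.dist r v = G.dist r u + 1) (hd' : G.dist r v = G.dist r u' + 1) : u = u' := by
  obtain ⟨p, hp, hpl⟩ := (hG.connected r v).exists_path_of_dist
  have key : ∀ {w : V}, G.Adj v w → G.dist r v = G.dist r w + 1 → w = p.penultimate := by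
    intro w hw hdw
    obtain ⟨q, hq, hql⟩ := (hG.connected r w).exists_path_of_dist
    have hv : v ∉ q.support := by
      intro hv
      have := hG.isAcyclic.path_concat hp hq hw hv
      have h2 := congrArg Walk.length this
      rw [Walk.length_concat] at h2
      omega
    exact hG.isAcyclic.eq_penultimate_of_adj_end hp hw
      (hG.isAcyclic.mem_support_of_ne_mem_support_of_adj_of_isPath hp hq hw hv)
  rw [key h hd, key h' hd']

/-- Top-down greedy selection. -/
def sel (G : SimpleGraph V) (P : V → Prop) (r : V) : ℕ → V → Prop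
  | 0, v => P v
  | n + 1, v => P v ∧ ∀ u, G.Adj v u → G.dist r v = G.dist r u + 1 → ¬ sel G P r n u

/-- The greedy set. -/
def Sel (G : SimpleGraph V) (P : V → Prop) (r : V) (v : V) : Prop := sel G P r (G.dist r v) v

theorem Sel_iff (P : V → Prop) (r v : V) :
    Sel G P r v ↔ P v ∧ ∀ u, G.Adj v u → G.dist r v = G.dist r u + 1 → ¬ Sel G P r u := by
  unfold Sel
  cases hn : G.dist r v with
  | zero =>
    simp [sel]
  | succ n =>
    simp only [sel]
    constructor
    · rintro ⟨hP, h⟩
      refine ⟨hP, fun u hu hd => ?_⟩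
      have : G.dist r u = n := by omega
      rw [this]
      exact h u hu (by omega)
    · rintro ⟨hP, h⟩
      refine ⟨hP, fun u hu hd => ?_⟩
      have h1 : G.dist r u = n := by omega
      have := h u hu (by omega)
      rwa [h1] at this

theorem exists_indepDom [Fintype V] [G.LocallyFinite] (hG : G.IsTree) (r : V) {D : Finset V}
    (hD : IsWeakDom G D) : ∃ I : Finset V, IsIndepDom G I ∧ r ∈ I ∧ I.card ≤ D.card := by
  classical
  set P : V → Prop := fun v => v ∈ D ∨ ∃ u ∈ D, G.Adj v u ∧ G.dist r u = G.dist r v + 1 with hP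
  set S : V → Prop := Sel G P r with hS
  have hSiff : ∀ v, S v ↔ P v ∧ ∀ u, G.Adj v u → G.dist r v = G.dist r u + 1 → ¬ S u :=
    fun v => Sel_iff P r v
  have hdich : ∀ {v w : V}, G.Adj v w →
      G.dist r v = G.dist r w + 1 ∨ G.dist r w = G.dist r v + 1 :=
    fun h => hG.dist_eq_dist_add_one_of_adj r h
  have hr0 : G.dist r r = 0 := SimpleGraph.dist_self
  -- the root is selected
  have hr : S r := by
    rw [hSiff]
    refine ⟨?_, fun u _ hd => by omega⟩
    by_cases h : r ∈ D
    · exact Or.inl h
    · obtain ⟨u, hu, hadj, -⟩ := hD r h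
      refine Or.inr ⟨u, hu, hadj, ?_⟩
      rcases hdich hadj with h1 | h1 <;> omega
  -- independence
  have hind : ∀ u v, S u → S v → ¬ G.Adj u v := by
    intro u v hu hv hadj
    rcases hdich hadj with h1 | h1
    · exact ((hSiff u).1 hu).2 v hadj h1 hv
    · exact ((hSiff v).1 hv).2 u hadj.symm h1 hu
  -- domination
  have hdom : ∀ w, ¬ S w → ∃ u, S u ∧ G.Adj w u := by
    intro w hw
    by_contra hcon
    push Not at hcon
    have hPw : ¬ P w := by
      intro h
      exact hw ((hSiff w).2 ⟨h, fun u hu _ hSu => hcon u hSu hu⟩)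
    have hwD : w ∉ D := fun h => hPw (Or.inl h)
    obtain ⟨p, hpD, hwp, hdeg⟩ := hD w hwD
    have hdp : G.dist r w = G.dist r p + 1 := by
      rcases hdich hwp with h1 | h1
      · exact h1
      · exact absurd (Or.inr ⟨p, hpD, hwp, h1⟩) hPw
    -- `p` is not the root
    have hpr : p ≠ r := by
      rintro rfl
      exact hcon _ hr hwp
    -- `p` has a second neighbour
    have hp2 : 2 ≤ G.degree p := by
      have hd0 : G.dist r p ≠ 0 := by
        intro h0
        exact hpr ((hG.connected.dist_eq_zero_iff).1 h0).symm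
      obtain ⟨q, hql⟩ := hG.connected.exists_walk_length_eq_dist r p
      have hqn : ¬ q.Nil := by
        intro hn
        exact hpr hn.eq.symm
      have hadj : G.Adj q.penultimate p := q.adj_penultimate hqn
      have hne : q.penultimate ≠ w := by
        intro he
        have h1 : G.dist r q.penultimate ≤ q.length - 1 := by
          have := SimpleGraph.dist_le q.dropLast
          rw [Walk.length_dropLast] at this
          exact this
        rw [he] at h1
        omega
      have hsub : ({w, q.penultimate} : Finset V) ⊆ G.neighborFinset p := by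
        intro x hx
        rw [SimpleGraph.mem_neighborFinset]
        simp only [Finset.mem_insert, Finset.mem_singleton] at hx
        rcases hx with rfl | rfl
        · exact hwp.symm
        · exact hadj.symm
      have hc := Finset.card_le_card hsub
      rw [Finset.card_pair (Ne.symm hne), SimpleGraph.card_neighborFinset_eq_degree] at hc
      exact hc
    have hw2 : 1 < (G.neighborFinset w).card := by
      rw [SimpleGraph.card_neighborFinset_eq_degree]
      omega
    obtain ⟨c, hc, hcp⟩ := Finset.exists_mem_ne hw2 p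
    rw [SimpleGraph.mem_neighborFinset] at hc
    have hdc : G.dist r c = G.dist r w + 1 := by
      rcases hdich hc with h1 | h1
      · exact absurd (parent_unique hG r hc hwp h1 hdp) hcp
      · exact h1
    have hcD : c ∉ D := fun h => hPw (Or.inr ⟨c, h, hc, hdc⟩)
    obtain ⟨g, hgD, hcg, -⟩ := hD c hcD
    have hdg : G.dist r g = G.dist r c + 1 := by
      rcases hdich hcg with h1 | h1
      · exact absurd (parent_unique hG r hcg hc.symm h1 hdc ▸ hgD) hwD
      · exact h1
    refine hcon c ((hSiff c).2 ⟨Or.inr ⟨g, hgD, hcg, hdg⟩, ?_⟩) hc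
    intro u hu hdu
    have := parent_unique hG r hu hc.symm hdu hdc
    rwa [this]
  -- the injection
  set I : Finset V := Finset.univ.filter S with hI
  have hmem : ∀ v, v ∈ I ↔ S v := fun v => by simp [hI]
  refine ⟨I, ⟨?_, ?_⟩, (hmem r).2 hr, ?_⟩
  · intro u hu v hv
    exact hind u v ((hmem u).1 hu) ((hmem v).1 hv)
  · intro w hw
    obtain ⟨u, hu, hadj⟩ := hdom w (fun h => hw ((hmem w).2 h))
    exact ⟨u, (hmem u).2 hu, hadj⟩
  · have hex : ∀ v, S v → v ∉ D → ∃ u ∈ D, G.Adj v u ∧ G.dist r u = G.dist r v + 1 := by
      intro v hv hvD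
      rcases ((hSiff v).1 hv).1 with h | h
      · exact absurd h hvD
      · exact h
    choose! f hf using hex
    refine Finset.card_le_card_of_injOn (fun v => if v ∈ D then v else f v) ?_ ?_
    · intro v hv
      have hv' := (hmem v).1 (by simpa using hv)
      by_cases h : v ∈ D
      · simp [h]
      · simp [h, (hf v hv' h).1]
    · intro v hv w hw he
      have hv' := (hmem v).1 (by simpa using hv)
      have hw' := (hmem w).1 (by simpa using hw)
      by_cases h1 : v ∈ D <;> by_cases h2 : w ∈ D
      · simpa [h1, h2] using he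
      · simp only [h1, h2, if_true, if_false] at he
        have := (hf w hw' h2).2.1
        rw [← he] at this
        exact absurd this (hind w v hw' hv')
      · simp only [h1, h2, if_true, if_false] at he
        have := (hf v hv' h1).2.1
        rw [he] at this
        exact absurd this (hind v w hv' hw')
      · simp only [h1, h2, if_false] at he
        obtain ⟨-, ha, hb⟩ := hf v hv' h1
        obtain ⟨-, hc, hd⟩ := hf w hw' h2
        rw [← he] at hc hd
        exact parent_unique hG r ha.symm hc.symm hb hd

theorem main [Fintype V] [G.LocallyFinite] (hG : G.IsTree) :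
    indepDomNumber G ≤ weakDomNumber G ∧
      ∀ (r : V) (D : Finset V), IsWeakDom G D →
        ∃ I : Finset V, IsIndepDom G I ∧ r ∈ I ∧ I.card ≤ D.card := by
  refine ⟨?_, fun r D hD => exists_indepDom hG r hD⟩
  have hne : {k | ∃ D : Finset V, IsWeakDom G D ∧ D.card = k}.Nonempty :=
    ⟨_, Finset.univ, fun v hv => absurd (Finset.mem_univ v) hv, rfl⟩
  obtain ⟨D, hD, hc⟩ := Nat.sInf_mem hne
  obtain ⟨r⟩ := hG.connected.nonempty
  obtain ⟨I, hI, -, hle⟩ := exists_indepDom hG r hD
  calc indepDomNumber G ≤ I.card := Nat.sInf_le ⟨I, hI, rfl⟩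
    _ ≤ D.card := hle
    _ = weakDomNumber G := hc

end Pool.Agent.J4H60.WeakDom
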