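import Mathlib

/-!
Definitions for the comparison of independent domination and weak domination.
-/

namespace Pool.Agent.J4H60.WeakDom

open SimpleGraph

variable {V : Type*}

/-- `D` is a dominating set of `G`. -/
def IsDom (G : SimpleGraph V) (D : Finset V) : Prop :=
  ∀ v, v ∉ D → ∃ u ∈ D, G.Adj v u

/-- `D` is a weak dominating set of `G`: every vertex outside `D` has a neighbour in `D` whose
degree is at most its own. -/
def IsWeakDom (G : SimpleGraph V) [G.LocallyFinite] (D : Finset V) : Prop :=
  ∀ v, v ∉ D → ∃ u ∈ D, G.Adj v u ∧ G.degree u ≤ G.degree v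

/-- `I` is an independent dominating set of `G`. -/
def IsIndepDom (G : SimpleGraph V) (I : Finset V) : Prop :=
  (∀ u ∈ I, ∀ v ∈ I, ¬ G.Adj u v) ∧ IsDom G I

/-- The independent domination number: the least cardinality of an independent dominating set. -/
noncomputable def indepDomNumber (G : SimpleGraph V) : ℕ :=
  sInf {k | ∃ I : Finset V, IsIndepDom G I ∧ I.card = k}

/-- The weak domination number: the least cardinality of a weak dominating set. -/
noncomputable def weakDomNumber (G : SimpleGraph V) [G.LocallyFinite] : ℕ :=
  sInf {k | ∃ D : Finset V, IsWeakDom G D ∧ D.card = k}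

end Pool.Agent.J4H60.WeakDom
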